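import Pool.Agent.Lib_helper57.A1.Coe

/-!
# MP_859019_mp, project A1: the inequality for all pairs, `0 < α ≤ 2`
-/

set_option autoImplicit false

open scoped BigOperators ComplexOrder Kronecker MatrixOrder Topology
open MeasureTheory Set Matrix Filter

namespace Pool.Agent.A1W

open Pool.Agent.RC Pool.Agent.A1

variable {ι κ : Type} [Fintype ι] [DecidableEq ι] [Fintype κ] [DecidableEq κ]

theorem spair_shift {A D : Matrix ι ι ℂ} (h : IsPsdPair A D) (j : ℕ) : SPair (shift A j) D := by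
  constructor
  · have : shift A j - D = ((1 / ((j : ℝ) + 1) : ℝ) : ℂ) • (1 : Matrix ι ι ℂ) + (A - D) := by
      unfold shift; abel
    rw [this]
    exact (eps_posDef j).add_posSemidef h.sub
  · have : shift A j + D = ((1 / ((j : ℝ) + 1) : ℝ) : ℂ) • (1 : Matrix ι ι ℂ) + (A + D) := by
      unfold shift; abel
    rw [this]
    exact (eps_posDef j).add_posSemidef h.add

theorem core_all (hX : XLNStmt) (α : ℝ) (h0 : 0 < α) (h2 : α < 2) (h1 : α ≠ 1)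
    (A₁ D₁ : Matrix ι ι ℂ) (q₁ : SPair A₁ D₁) (A₂ D₂ : Matrix κ κ ℂ) (q₂ : SPair A₂ D₂) :
    G α A₁ D₁ * G α A₂ D₂ ≤ (2 ^ (α - 1) - 1) * G α (A₁ ⊗ₖ A₂) (D₁ ⊗ₖ D₂) := by
  have h₁ := isPair_of_spair q₁
  have h₂ := isPair_of_spair q₂
  obtain ⟨c, hc, hser⟩ := series02 α h0 h2 h1
  have hc0 : c ≠ 0 := by
    rintro rfl
    simp at hc
  have hα : ∀ m : ℕ, α < ((2 * (m + 1) : ℕ) : ℝ) := by
    intro m
    push_cast
    have : (0 : ℝ) ≤ m := Nat.cast_nonneg m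
    linarith
  have hev : ∀ m : ℕ, Even (2 * (m + 1)) := fun m => even_two_mul _
  have hb : ∀ m : ℕ, 0 < bet α (2 * (m + 1)) := fun m => bet_pos α _ h0 (hα m)
  have hanti : ∀ {ι : Type} [Fintype ι] [DecidableEq ι] (A D : Matrix ι ι ℂ), IsPair A D →
      Antitone fun m : ℕ => In α A D (2 * (m + 1)) / bet α (2 * (m + 1)) := by
    intro ι _ _ A D h
    apply antitone_nat_of_succ_le
    intro m
    have e1 := In_dec α (2 * (m + 1)) h0 (hα m) (hev m) A D h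
    have e2 := bet_rec α (2 * (m + 1)) h0 (hα m)
    rw [div_le_div_iff₀ (hb (m + 1)) (hb m)]
    have hn : 0 < ((2 * (m + 1) : ℕ) : ℝ) * (((2 * (m + 1) : ℕ) : ℝ) + 1) := by positivity
    have e3 : 2 * (m + 1 + 1) = 2 * (m + 1) + 2 := by ring
    rw [e3]
    have e4 := mul_le_mul_of_nonneg_right e1 (hb m).le
    have e5 : (((2 * (m + 1) : ℕ) : ℝ) - α) * (((2 * (m + 1) : ℕ) : ℝ) + 1 - α) *
        In α A D (2 * (m + 1)) * bet α (2 * (m + 1)) =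
        (((2 * (m + 1) : ℕ) : ℝ) * (((2 * (m + 1) : ℕ) : ℝ) + 1)) *
          (In α A D (2 * (m + 1)) * bet α (2 * (m + 1) + 2)) := by
      calc _ = In α A D (2 * (m + 1)) * ((((2 * (m + 1) : ℕ) : ℝ) - α) *
            (((2 * (m + 1) : ℕ) : ℝ) + 1 - α) * bet α (2 * (m + 1))) := by ring
        _ = In α A D (2 * (m + 1)) * ((((2 * (m + 1) : ℕ) : ℝ) *
            (((2 * (m + 1) : ℕ) : ℝ) + 1)) * bet α (2 * (m + 1) + 2)) := by rw [e2]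
        _ = _ := by ring
    rw [e5, mul_assoc] at e4
    exact le_of_mul_le_mul_left e4 hn
  have hsum : ∀ {ι : Type} [Fintype ι] [DecidableEq ι] (A D : Matrix ι ι ℂ), IsPair A D →
      HasSum (fun m : ℕ => bet α (2 * (m + 1)) / (2 * ((m : ℝ) + 1)) *
        (In α A D (2 * (m + 1)) / bet α (2 * (m + 1)))) (G α A D / c) := by
    intro ι _ _ A D h
    have h5 := hser ι A D h
    have h6 : (fun m : ℕ => bet α (2 * (m + 1)) / (2 * ((m : ℝ) + 1)) *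
        (In α A D (2 * (m + 1)) / bet α (2 * (m + 1)))) =
        fun m : ℕ => In α A D (2 * (m + 1)) / (2 * ((m : ℝ) + 1)) := by
      funext m
      have := (hb m).ne'
      field_simp
    rw [h6]
    exact h5
  have hone : HasSum (fun m : ℕ => bet α (2 * (m + 1)) / (2 * ((m : ℝ) + 1)))
      ((2 ^ (α - 1) - 1) / c) := by
    have := hser Unit 1 1 pair_one
    rw [G_one α h0] at this
    simpa only [In_one] using this
  obtain ⟨S, hS1, hS2⟩ := hX α h0 h2 h1 ι κ A₁ D₁ A₂ D₂ q₁ q₂ _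
    (hser (ι × κ) (A₁ ⊗ₖ A₂) (D₁ ⊗ₖ D₂) (h₁.kron h₂))
  have key := cheb (fun m : ℕ => bet α (2 * (m + 1)) / (2 * ((m : ℝ) + 1)))
    (fun m : ℕ => In α A₁ D₁ (2 * (m + 1)) / bet α (2 * (m + 1)))
    (fun m : ℕ => In α A₂ D₂ (2 * (m + 1)) / bet α (2 * (m + 1)))
    (fun m : ℕ => In α A₁ D₁ (2 * (m + 1)) / bet α (2 * (m + 1)) *
      (In α A₂ D₂ (2 * (m + 1)) / bet α (2 * (m + 1))))
    (fun m => div_nonneg (hb m).le (by positivity)) (hanti A₁ D₁ h₁) (hanti A₂ D₂ h₂)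
    (fun m => le_rfl) _ _ _ _ (hsum A₁ D₁ h₁) (hsum A₂ D₂ h₂) hS2 hone
  have hs0 : 0 ≤ (2 ^ (α - 1) - 1) / c :=
    hone.nonneg fun m => div_nonneg (hb m).le (by positivity)
  have key2 := key.trans (mul_le_mul_of_nonneg_left hS1 hs0)
  rw [div_mul_div_comm, div_mul_div_comm, div_le_div_iff_of_pos_right] at key2
  · exact key2
  · exact mul_self_pos.2 hc0

theorem final_ne_all (hX : XLNStmt) (α : ℝ) (h0 : 0 < α) (h2 : α < 2) (h1 : α ≠ 1)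
    (A₁ D₁ : Matrix ι ι ℂ) (h₁ : IsPsdPair A₁ D₁)
    (A₂ D₂ : Matrix κ κ ℂ) (h₂ : IsPsdPair A₂ D₂) :
    G α A₁ D₁ * G α A₂ D₂ ≤ (2 ^ (α - 1) - 1) * G α (A₁ ⊗ₖ A₂) (D₁ ⊗ₖ D₂) := by
  apply le_of_tendsto_of_tendsto'
    ((tendsto_G_shift h0 h₁.pos.1 h₁.herm).mul (tendsto_G_shift h0 h₂.pos.1 h₂.herm))
    ((tendsto_G_shift_kron h0 h₁.pos.1 h₁.herm h₂.pos.1 h₂.herm).const_mul (2 ^ (α - 1) - 1))
  intro j
  exact core_all hX α h0 h2 h1 (shift A₁ j) D₁ (spair_shift h₁ j) (shift A₂ j) D₂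
    (spair_shift h₂ j)

theorem final_two_all (hX : XLNStmt) (A₁ D₁ : Matrix ι ι ℂ) (h₁ : IsPsdPair A₁ D₁)
    (A₂ D₂ : Matrix κ κ ℂ) (h₂ : IsPsdPair A₂ D₂) :
    G 2 A₁ D₁ * G 2 A₂ D₂ ≤ (2 ^ ((2 : ℝ) - 1) - 1) * G 2 (A₁ ⊗ₖ A₂) (D₁ ⊗ₖ D₂) := by
  have t1 : Tendsto (fun α => G α A₁ D₁ * G α A₂ D₂) (𝓝[<] 2) (𝓝 (G 2 A₁ D₁ * G 2 A₂ D₂)) :=
    ((tendsto_G_exp A₁ D₁ 2 (by norm_num)).mul
      (tendsto_G_exp A₂ D₂ 2 (by norm_num))).mono_left nhdsWithin_le_nhds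
  have t2 : Tendsto (fun α => (2 ^ (α - 1) - 1) * G α (A₁ ⊗ₖ A₂) (D₁ ⊗ₖ D₂)) (𝓝[<] 2)
      (𝓝 ((2 ^ ((2 : ℝ) - 1) - 1) * G 2 (A₁ ⊗ₖ A₂) (D₁ ⊗ₖ D₂))) :=
    ((tendsto_L 2).mul (tendsto_G_exp _ _ 2 (by norm_num))).mono_left nhdsWithin_le_nhds
  apply le_of_tendsto_of_tendsto t1 t2
  have hev : ∀ᶠ α : ℝ in 𝓝[<] 2, α ∈ Ioo (1 : ℝ) 2 := Ioo_mem_nhdsLT (by norm_num)
  filter_upwards [hev] with α hα
  exact final_ne_all hX α (by linarith [hα.1]) hα.2 (ne_of_gt hα.1) A₁ D₁ h₁ A₂ D₂ h₂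

theorem final_one_all (hX : XLNStmt) (A₁ D₁ : Matrix ι ι ℂ) (h₁ : IsPsdPair A₁ D₁)
    (A₂ D₂ : Matrix κ κ ℂ) (h₂ : IsPsdPair A₂ D₂) :
    G1 A₁ D₁ * G1 A₂ D₂ ≤ Real.log 2 * G1 (A₁ ⊗ₖ A₂) (D₁ ⊗ₖ D₂) := by
  have hk := h₁.kron h₂
  have t1 := (tendsto_G1 A₁ D₁ h₁.pos h₁.sub h₁.add).mul
    (tendsto_G1 A₂ D₂ h₂.pos h₂.sub h₂.add)
  have tL : Tendsto (fun α : ℝ => ((2 : ℝ) ^ (α - 1) - 1) / (α - 1)) (𝓝[>] 1)
      (𝓝 (Real.log 2)) := by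
    have h1 : HasDerivAt (fun α : ℝ => (2 : ℝ) ^ α) ((2 : ℝ) ^ (1 : ℝ) * Real.log 2) 1 := by
      have := (hasDerivAt_id (1 : ℝ)).const_rpow (by norm_num : (0 : ℝ) < 2)
      simpa [mul_comm] using this
    have h3 : Tendsto (slope (fun α : ℝ => (2 : ℝ) ^ α) 1) (𝓝[>] 1)
        (𝓝 ((2 : ℝ) ^ (1 : ℝ) * Real.log 2)) :=
      h1.tendsto_slope.mono_left (nhdsWithin_mono _ fun y hy => ne_of_gt hy)
    have h4 := h3.const_mul (1 / 2)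
    have e : 1 / 2 * ((2 : ℝ) ^ (1 : ℝ) * Real.log 2) = Real.log 2 := by
      rw [Real.rpow_one]; ring
    rw [e] at h4
    refine h4.congr fun α => ?_
    rw [slope_def_field, Real.rpow_one, Real.rpow_sub_one (by norm_num)]
    ring
  have t2 := tL.mul (tendsto_G1 (A₁ ⊗ₖ A₂) (D₁ ⊗ₖ D₂) hk.pos hk.sub hk.add)
  apply le_of_tendsto_of_tendsto t1 t2
  have hev : ∀ᶠ α : ℝ in 𝓝[>] 1, α ∈ Ioo (1 : ℝ) 2 := Ioo_mem_nhdsGT (by norm_num)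
  filter_upwards [hev] with α hα
  have h3 := final_ne_all hX α (by linarith [hα.1]) hα.2 (ne_of_gt hα.1) A₁ D₁ h₁ A₂ D₂ h₂
  have h4 : 0 < α - 1 := by linarith [hα.1]
  rw [div_mul_div_comm, div_mul_div_comm]
  exact div_le_div_of_nonneg_right h3 (by positivity)

theorem fin1_stmt (hX : XLNStmt) : Q1Stmt := by
  refine ⟨?_, ?_⟩
  · intro α h0 h2 h1 ι κ _ _ _ _ A₁ D₁ A₂ D₂ p₁ p₂
    rcases eq_or_lt_of_le h2 with rfl | h2'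
    · exact final_two_all hX A₁ D₁ p₁ A₂ D₂ p₂
    · exact final_ne_all hX α h0 h2' h1 A₁ D₁ p₁ A₂ D₂ p₂
  · intro ι κ _ _ _ _ A₁ D₁ A₂ D₂ p₁ p₂
    exact final_one_all hX A₁ D₁ p₁ A₂ D₂ p₂

end Pool.Agent.A1W
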