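import Pool.Agent.Lib_helper59.A1.Stmts
import Pool.Agent.Lib_helper27.A1.Coef

/-!
# MP_859019_mp, project A1: comparison of coefficients and the inequality (XL)
-/

set_option autoImplicit false

open scoped BigOperators ComplexOrder Kronecker MatrixOrder Topology
open MeasureTheory Set Matrix Filter

namespace Pool.Agent.A1W

open Pool.Agent.RC Pool.Agent.A1

theorem coe_stmt : COEStmt := by
  intro u v s hu hv
  have h12 : (1 / 2 : ℝ) ∈ Ioo (0 : ℝ) 1 := ⟨by norm_num, by norm_num⟩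
  have hb : ∀ w : ℕ → ℝ, (∀ a ∈ Ioo (0 : ℝ) 1, HasSum (fun m : ℕ => a ^ (2 * (m + 1)) * w m) (s a)) →
      ∃ K : ℝ, ∀ m, |(1 / 2 : ℝ) ^ (2 * (m + 1)) * w m| ≤ K := by
    intro w hw
    have h1 := (hw _ h12).summable.tendsto_atTop_zero
    obtain ⟨K, hK⟩ := h1.norm.bddAbove_range
    exact ⟨K, fun m => hK ⟨m, rfl⟩⟩
  obtain ⟨K, hK⟩ := hb u hu
  obtain ⟨L, hL⟩ := hb v hv
  have h1 := Xlm.coef_eq hK hL (by
    intro a h0 h1
    have ha : a * (1 / 2) ∈ Ioo (0 : ℝ) 1 := ⟨by positivity, by linarith⟩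
    have e : ∀ (w : ℕ → ℝ) (m : ℕ), a ^ (2 * (m + 1)) * ((1 / 2 : ℝ) ^ (2 * (m + 1)) * w m) =
        (a * (1 / 2)) ^ (2 * (m + 1)) * w m := by
      intro w m
      rw [mul_pow, mul_assoc]
    simp only [e]
    rw [(hu _ ha).tsum_eq, (hv _ ha).tsum_eq])
  funext m
  have h2 := congrFun h1 m

  exact mul_left_cancel₀ (by positivity) h2

theorem isPair_of_spair {ν : Type} [Fintype ν] [DecidableEq ν] {A D : Matrix ν ν ℂ}
    (h : SPair A D) : IsPair A D := by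
  refine ⟨?_, h.sub.posSemidef, h.add.posSemidef⟩
  have h1 : A = ((1 / 2 : ℝ) : ℂ) • ((A - D) + (A + D)) := by
    have : (A - D) + (A + D) = A + A := by abel
    rw [this, ← two_smul ℂ A, smul_smul]
    norm_num
  rw [h1]
  apply (h.sub.add h.add).smul
  have : (0 : ℝ) < 1 / 2 := by norm_num
  exact_mod_cast this

theorem xln_stmt (hX : XLMStmt) : XLNStmt := by
  intro α h0 h2 h1 ι κ _ _ _ _ A₁ D₁ A₂ D₂ p₁ p₂ T hT
  obtain ⟨v, hv1, hv2⟩ := hX α h0 h2 h1 κ A₂ D₂ p₂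
  obtain ⟨hs, hle⟩ := hv1 ι A₁ D₁ p₁
  obtain ⟨c, hc, hser⟩ := series02 α h0 h2 h1
  have hα : ∀ m : ℕ, α < ((2 * (m + 1) : ℕ) : ℝ) := by
    intro m
    push_cast
    have : (0 : ℝ) ≤ m := Nat.cast_nonneg m
    linarith
  have hb : ∀ m : ℕ, 0 < bet α (2 * (m + 1)) := fun m => bet_pos α _ h0 (hα m)
  have hsum2 := (hser κ A₂ D₂ (isPair_of_spair p₂)).summable
  have hco := coe_stmt (fun m : ℕ => bet α (2 * (m + 1)) * v m)
    (fun m : ℕ => In α A₂ D₂ (2 * (m + 1)) / (2 * ((m : ℝ) + 1)))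
    (fun a => ∑' m : ℕ, a ^ (2 * (m + 1)) * (In α A₂ D₂ (2 * (m + 1)) / (2 * ((m : ℝ) + 1))))
    hv2 (by
      intro a ha
      apply Summable.hasSum
      refine Summable.of_norm_bounded hsum2.norm fun m => ?_
      rw [norm_mul, Real.norm_eq_abs, abs_of_nonneg (pow_nonneg ha.1.le _)]
      exact mul_le_of_le_one_left (norm_nonneg _) (pow_le_one₀ ha.1.le ha.2.le))
  refine ⟨∑' m : ℕ, In α A₁ D₁ (2 * (m + 1)) * v m, ?_, ?_⟩
  · rw [hT.tsum_eq] at hle
    exact hle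
  · have e : (fun m : ℕ => bet α (2 * (m + 1)) / (2 * ((m : ℝ) + 1)) *
          (In α A₁ D₁ (2 * (m + 1)) / bet α (2 * (m + 1)) *
            (In α A₂ D₂ (2 * (m + 1)) / bet α (2 * (m + 1))))) =
        fun m : ℕ => In α A₁ D₁ (2 * (m + 1)) * v m := by
      funext m
      have h3 : bet α (2 * (m + 1)) * v m =
        In α A₂ D₂ (2 * (m + 1)) / (2 * ((m : ℝ) + 1)) := congrFun hco m
      have h4 : In α A₂ D₂ (2 * (m + 1)) = bet α (2 * (m + 1)) * v m * (2 * ((m : ℝ) + 1)) := by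
        rw [h3]
        have : (2 * ((m : ℝ) + 1)) ≠ 0 := by positivity
        field_simp
      rw [h4]
      have h5 := (hb m).ne'
      field_simp
    rw [e]
    exact hs.hasSum

end Pool.Agent.A1W
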